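import Pool.Agent.H72.AAP.Targets
import Pool.Agent.H62.BF.CUBI

/-!
# Board aap_modules, module INTG: cube free sets among the logarithms of integers
-/

open Finset

namespace Pool.Agent.H54.AAP

open Pool.Agent.H72.AAP Pool.Agent.H62.BF

/-- a multiplicative cube gives a cube of logarithms with independent sides -/
theorem cube_of_logs (k : ℕ) (p : Fin k → Fin 2 → ℕ) (m : ℕ) (hm : 1 ≤ m)
    (hp : ∀ i e, (p i e).Prime)
    (hinj : Function.Injective (fun ie : Fin k × Fin 2 => p ie.1 ie.2)) (B : Set ℂ)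
    (hB : ∀ ε : Fin k → Fin 2, (Real.log ((m * ∏ i, p i (ε i) : ℕ) : ℝ) : ℂ) ∈ B) :
    ∃ (v : ℂ) (u : Fin k → ℂ), LinearIndependent ℚ u ∧
      ∀ I : Finset (Fin k), v + ∑ i ∈ I, u i ∈ B := by
  have hp0 : ∀ i e, (0:ℝ) < (p i e : ℝ) := fun i e => by exact_mod_cast (hp i e).pos
  have hm0 : (0:ℝ) < (m:ℝ) := by exact_mod_cast hm
  refine ⟨((Real.log m + ∑ i, Real.log (p i 0) : ℝ) : ℂ),
    fun i => ((Real.log (p i 1) - Real.log (p i 0) : ℝ) : ℂ), ?_, ?_⟩
  · rw [← LinearIndependent.iff_fractionRing ℤ ℚ, Fintype.linearIndependent_iff]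
    intro g hg
    have h1 : ∑ i, (g i : ℝ) * (Real.log (p i 1) - Real.log (p i 0)) = 0 := by
      have : ((∑ i, (g i : ℝ) * (Real.log (p i 1) - Real.log (p i 0)) : ℝ) : ℂ) = 0 := by
        rw [← hg]
        push_cast
        refine Finset.sum_congr rfl fun i _ => ?_
        rw [zsmul_eq_mul]
      exact_mod_cast this
    have h2 : ∑ ie : Fin k × Fin 2, (((if ie.2 = 1 then g ie.1 else - g ie.1 : ℤ)) : ℝ) *
        Real.log (p ie.1 ie.2) = 0 := by
      rw [Fintype.sum_prod_type, ← h1]
      refine Finset.sum_congr rfl fun i _ => ?_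
      rw [Fin.sum_univ_two]
      simp
      ring
    intro i
    have h3 := log_primes_indep (fun ie : Fin k × Fin 2 => p ie.1 ie.2)
      (fun ie => hp ie.1 ie.2) hinj (fun ie => if ie.2 = 1 then g ie.1 else - g ie.1) h2 (i, 1)
    simpa using h3
  · intro I
    have h1 := hB (fun i => if i ∈ I then 1 else 0)
    have h2 : Real.log ((m * ∏ i, p i (if i ∈ I then 1 else 0) : ℕ) : ℝ) =
        (Real.log m + ∑ i, Real.log (p i 0)) +
          ∑ i ∈ I, (Real.log (p i 1) - Real.log (p i 0)) := by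
      push_cast
      rw [Real.log_mul hm0.ne' (Finset.prod_ne_zero_iff.mpr fun i _ => (hp0 i _).ne'),
        Real.log_prod (fun i _ => (hp0 i _).ne'), add_assoc]
      congr 1
      have h3 : ∀ i, Real.log (p i (if i ∈ I then 1 else 0)) = Real.log (p i 0) +
          if i ∈ I then (Real.log (p i 1) - Real.log (p i 0)) else 0 := by
        intro i
        by_cases hi : i ∈ I
        · rw [if_pos hi, if_pos hi]; ring
        · rw [if_neg hi, if_neg hi, add_zero]
      rw [Finset.sum_congr rfl fun i _ => h3 i, Finset.sum_add_distrib, Finset.sum_ite_mem,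
        Finset.univ_inter]
    rw [h2] at h1
    convert h1 using 1
    push_cast
    rfl

theorem pf_INTG (h1 : T_SM1) (h2 : T_SM2) : T_INTG := by
  classical
  intro κ
  obtain ⟨A, C2, hA, hC2, h2'⟩ := h2 (κ + 1)
  obtain ⟨C1, c, hC1, hc, h1'⟩ := h1 (κ + 1) A hA
  have hl3 : 1 < Real.log 3 := by
    rw [Real.lt_log_iff_exp_lt (by norm_num)]
    exact lt_trans Real.exp_one_lt_d9 (by norm_num)
  have hll3 : 0 < Real.log (Real.log 3) := Real.log_pos hl3
  have hpow : 0 < Real.log (Real.log 3) ^ c := Real.rpow_pos_of_pos hll3 c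
  refine ⟨C1 + C2 / Real.log (Real.log 3) ^ c, c, by positivity, hc, fun B hB x hx => ?_⟩
  have hx0 : (0:ℝ) < x := by exact_mod_cast (by omega : 0 < x)
  have hx3 : (3:ℝ) ≤ x := by exact_mod_cast hx
  have hlx : Real.log 3 ≤ Real.log x := Real.log_le_log (by norm_num) hx3
  have hllx : Real.log (Real.log 3) ≤ Real.log (Real.log x) := Real.log_le_log (by linarith) hlx
  set S : Finset ℕ := (Finset.Icc 1 x).filter (fun a => (Real.log a : ℂ) ∈ B) with hS
  have hset : {a : ℕ | 1 ≤ a ∧ a ≤ x ∧ (Real.log a : ℂ) ∈ B} = (S : Set ℕ) := by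
    ext a
    simp [hS, and_assoc]
  rw [hset, Set.ncard_coe_finset]
  set P : ℕ → Prop := fun a =>
    (a.primeFactors.filter (fun p : ℕ => (Real.log x) ^ A < (p : ℝ))).card < κ + 1 with hP
  have hsplit : (S.filter P).card + (S.filter (fun a => ¬ P a)).card = S.card :=
    Finset.card_filter_add_card_filter_not _
  have hb1 : ((S.filter P).card : ℝ) * Real.log x ≤ C1 * x * Real.log (Real.log x) ^ c := by
    refine le_trans ?_ (h1' x hx)
    refine mul_le_mul_of_nonneg_right ?_ (by linarith)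
    exact_mod_cast Finset.card_le_card (Finset.filter_subset_filter _ (Finset.filter_subset _ _))
  have hb2 : ((S.filter (fun a => ¬ P a)).card : ℝ) * Real.log x ≤ C2 * x := by
    refine h2' x hx _ ((Finset.filter_subset _ _).trans (Finset.filter_subset _ _)) ?_ ?_
    · intro a ha
      exact not_lt.mp (Finset.mem_filter.mp ha).2
    · intro p m hp hinj
      by_contra hcon
      push Not at hcon
      have hmem : ∀ ε : Fin (κ + 1) → Fin 2, m * ∏ i, p i (ε i) ∈ S := fun ε =>
        (Finset.mem_filter.mp (hcon ε)).1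
      have hm : 1 ≤ m := by
        have h3 := (Finset.mem_Icc.mp (Finset.mem_filter.mp (hmem fun _ => 0)).1).1
        rcases Nat.eq_zero_or_pos m with rfl | h
        · simp at h3
        · exact h
      obtain ⟨v, u, hu, hv⟩ := cube_of_logs (κ + 1) p m hm hp hinj B
        fun ε => (Finset.mem_filter.mp (hmem ε)).2
      have := hB v (κ + 1) u hu hv
      omega
  have hb3 : C2 * x ≤ C2 / Real.log (Real.log 3) ^ c * x * Real.log (Real.log x) ^ c := by
    have h3 : Real.log (Real.log 3) ^ c ≤ Real.log (Real.log x) ^ c :=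
      Real.rpow_le_rpow hll3.le hllx hc.le
    calc C2 * x = C2 / Real.log (Real.log 3) ^ c * x * Real.log (Real.log 3) ^ c := by
          field_simp
      _ ≤ _ := mul_le_mul_of_nonneg_left h3 (by positivity)
  have h4 : (S.card : ℝ) = ((S.filter P).card : ℝ) + ((S.filter (fun a => ¬ P a)).card : ℝ) := by
    exact_mod_cast hsplit.symm
  rw [h4]
  linarith

end Pool.Agent.H54.AAP
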